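import Pool.Agent.Helper3.WT.St.Stubs

set_option autoImplicit false

namespace Pool.Agent.Helper7.WT

open Finset
open Pool.Agent.Helper3.WT

variable (σ : Sys)

lemma W_succ (k : ℕ) : σ.W (k + 1) = σ.W k * (2 * σ.p k) ^ (2 * σ.M k) := by
  unfold Sys.W
  rw [prod_range_succ]

lemma W_dvd {j k : ℕ} (h : j ≤ k) : σ.W j ∣ σ.W k := by
  induction k, h using Nat.le_induction with
  | base => exact dvd_rfl
  | succ k _ ih =>
    rw [W_succ]
    exact Dvd.dvd.mul_right ih _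

lemma W_le {j k : ℕ} (h : j ≤ k) : σ.W j ≤ σ.W k :=
  Nat.le_of_dvd (St.W_pos σ k) (W_dvd σ h)

lemma Q_pos (k : ℕ) : 0 < 2 * σ.p k := by
  have := (σ.comp k).lt_p
  omega

lemma low_split (k : ℕ) : ∀ l ∈ σ.Low k, ∀ j, j < k → ∃ l0 ∈ σ.Low j, ∃ t ∈ σ.T j, ∃ r,
    l = l0 + σ.W j * t + σ.W (j + 1) * r := by
  induction k with
  | zero => intro l _ j hj; omega
  | succ k ih =>
    intro l hl j hj
    obtain ⟨l', hl', t, ht, rfl⟩ := hl
    rcases Nat.lt_or_ge j k with h | h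
    · obtain ⟨l0, hl0, t0, ht0, r, hr⟩ := ih l' hl' j h
      obtain ⟨c, hc⟩ := W_dvd σ (j := j + 1) (k := k) h
      refine ⟨l0, hl0, t0, ht0, r + c * t, ?_⟩
      rw [hr, hc]
      ring
    · have : j = k := by omega
      subst this
      exact ⟨l', hl', t, ht, 0, by ring⟩

/-- the label of a sum of an element of `Low k` and of a shorter element -/
lemma label {k k' N' j l b : ℕ} (hk : k' < k) (h2 : 2 ≤ N') (hN : N' ≤ σ.M k')
    (hl : l ∈ σ.Low k) (hb : b ∈ σ.Part k' N') (hj : j < k) :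
    ((l + b) / σ.W j) % (2 * σ.p j) = if j = k' then N' else 0 := by
  obtain ⟨l0, hl0, t, ht, r, hr⟩ := low_split σ k l hl j hj
  have hQ := Q_pos σ j
  have hW := St.W_pos σ j
  have hM := (σ.comp j).two_le
  have hl0' := St.low_lt σ j l0 hl0
  have htl := (σ.comp j).T_lab t ht
  have hQd : (2 * σ.p j) ∣ (2 * σ.p j) ^ (2 * σ.M j) := dvd_pow_self _ (by omega)
  obtain ⟨e, he⟩ := hQd
  have key : ∀ u v w : ℕ, 2 * v < σ.W j → l + b = (l0 + v) + σ.W j * (t + u + (2 * σ.p j) * w) →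
      ((l + b) / σ.W j) % (2 * σ.p j) = u % (2 * σ.p j) := by
    intro u v w hv h
    rw [h, Nat.add_mul_div_left _ _ hW, Nat.div_eq_of_lt (by omega), zero_add,
      Nat.add_mul_mod_self_left, Nat.add_mod, htl, zero_add, Nat.mod_mod]
  rcases Nat.lt_trichotomy j k' with h | h | h
  · -- `j < k'`
    obtain ⟨lb, hlb, s, hs, rfl⟩ := hb
    obtain ⟨m0, hm0, t1, ht1, r1, hr1⟩ := low_split σ k' lb hlb j h
    obtain ⟨c, hc⟩ := W_dvd σ (j := j + 1) (k := k') h
    have hm0' := St.low_lt σ j m0 hm0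
    have ht1l := (σ.comp j).T_lab t1 ht1
    rw [if_neg (by omega), key t1 m0 (e * (r + r1 + c * s)) hm0' ?_, ht1l]
    rw [hr, hr1, hc, W_succ, he]
    ring
  · -- `j = k'`
    subst h
    obtain ⟨lb, hlb, s, hs, rfl⟩ := hb
    have hlb' := St.low_lt σ j lb hlb
    have hsl := (σ.comp j).S_lab N' h2 hN s hs
    rw [if_pos rfl, key s lb (e * r) hlb' ?_, hsl]
    rw [hr, W_succ, he]
    ring
  · -- `k' < j`
    have hb' := St.part_lt_W σ h2 hN h b hb
    rw [if_neg (by omega), key 0 b (e * r) hb' ?_, Nat.zero_mod]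
    rw [hr, W_succ, he]
    ring

lemma top_le {k k' N N' : ℕ} (hkN : k' < k ∨ (k' = k ∧ N' ≤ N)) (h2 : 2 ≤ N)
    (hN : N ≤ σ.M k) (h2' : 2 ≤ N') (hN' : N' ≤ σ.M k') {a b : ℕ} (ha : a ∈ σ.Part k N)
    (hb : b ∈ σ.Part k' N') : a + b < σ.W k * (2 * σ.p k) ^ (2 * N) ∧
      σ.W k * (2 * σ.p k) ^ (2 * (N - 1)) ≤ a + b := by
  have h1 := St.part_lt σ h2 hN a ha
  have h3 := St.part_ge σ h2 hN a ha
  have hQ := Q_pos σ k
  have h4 : 2 * b < σ.W k * (2 * σ.p k) ^ (2 * N) ∨ 2 * b < σ.W k := by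
    rcases hkN with h | ⟨h, hle⟩
    · right
      exact St.part_lt_W σ h2' hN' h b hb
    · subst h
      left
      refine lt_of_lt_of_le (St.part_lt σ h2' hN' b hb) ?_
      exact Nat.mul_le_mul_left _ (Nat.pow_le_pow_right hQ (by omega))
  have h5 : σ.W k ≤ σ.W k * (2 * σ.p k) ^ (2 * N) := Nat.le_mul_of_pos_right _ (by positivity)
  refine ⟨?_, by omega⟩
  rcases h4 with h4 | h4 <;> omega

lemma top_lt {k l N O : ℕ} (hN : N ≤ σ.M k) (h : k < l ∨ (k = l ∧ N < O)) :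
    σ.W k * (2 * σ.p k) ^ (2 * N) ≤ σ.W l * (2 * σ.p l) ^ (2 * (O - 1)) := by
  have hQ := Q_pos σ k
  have hQl := Q_pos σ l
  rcases h with h | ⟨h, h'⟩
  · calc σ.W k * (2 * σ.p k) ^ (2 * N) ≤ σ.W k * (2 * σ.p k) ^ (2 * σ.M k) :=
          Nat.mul_le_mul_left _ (Nat.pow_le_pow_right hQ (by omega))
      _ = σ.W (k + 1) := (W_succ σ k).symm
      _ ≤ σ.W l := W_le σ h
      _ ≤ _ := Nat.le_mul_of_pos_right _ (by positivity)
  · subst h
    exact Nat.mul_le_mul_left _ (Nat.pow_le_pow_right hQ (by omega))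

/-- WT-B4: the types of the summands are determined by the sum -/
theorem type_unique {k k' N N' l l' O O' : ℕ} (hkN : k' < k ∨ (k' = k ∧ N' ≤ N)) (h2 : 2 ≤ N)
    (hN : N ≤ σ.M k) (h2' : 2 ≤ N') (hN' : N' ≤ σ.M k')
    (hlO : l' < l ∨ (l' = l ∧ O' ≤ O)) (h3 : 2 ≤ O)
    (hO : O ≤ σ.M l) (h3' : 2 ≤ O') (hO' : O' ≤ σ.M l')
    {a b a2 b2 : ℕ} (ha : a ∈ σ.Part k N) (hb : b ∈ σ.Part k' N') (ha2 : a2 ∈ σ.Part l O)
    (hb2 : b2 ∈ σ.Part l' O') (h : a + b = a2 + b2) : k = l ∧ N = O ∧ k' = l' ∧ N' = O' := by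
  obtain ⟨t1, t2⟩ := top_le σ hkN h2 hN h2' hN' ha hb
  obtain ⟨t3, t4⟩ := top_le σ hlO h3 hO h3' hO' ha2 hb2
  have hkl : k = l ∧ N = O := by
    by_contra hne
    have hcases : (k < l ∨ (k = l ∧ N < O)) ∨ (l < k ∨ (l = k ∧ O < N)) := by
      rcases Nat.lt_trichotomy k l with h' | h' | h'
      · exact Or.inl (Or.inl h')
      · rcases Nat.lt_trichotomy N O with h'' | h'' | h''
        · exact Or.inl (Or.inr ⟨h', h''⟩)
        · exact absurd ⟨h', h''⟩ hne
        · exact Or.inr (Or.inr ⟨h'.symm, h''⟩)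
      · exact Or.inr (Or.inl h')
    rcases hcases with h' | h'
    · have := top_lt σ hN h'
      omega
    · have := top_lt σ hO h'
      omega
  obtain ⟨rfl, rfl⟩ := hkl
  refine ⟨rfl, rfl, ?_⟩
  have hW := St.W_pos σ k
  have hMp := (σ.comp k).lt_p
  obtain ⟨la, hla, s, hs, rfl⟩ := ha
  obtain ⟨la2, hla2, s2, hs2, rfl⟩ := ha2
  have hla' := St.low_lt σ k la hla
  have hla2' := St.low_lt σ k la2 hla2
  have hsl := (σ.comp k).S_lab N h2 hN s hs
  have hs2l := (σ.comp k).S_lab N h2 hN s2 hs2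
  -- quotient by `W k`
  have quot : ∀ x u v : ℕ, x < σ.W k → u = x + σ.W k * v → u / σ.W k = v := by
    intro x u v hx hu
    rw [hu, Nat.add_mul_div_left _ _ hW, Nat.div_eq_of_lt hx, zero_add]
  by_cases hk1 : k' = k
  · subst hk1
    obtain ⟨lb, hlb, s', hs', rfl⟩ := hb
    have hlb' := St.low_lt σ k' lb hlb
    have hs'l := (σ.comp k').S_lab N' h2' hN' s' hs'
    have q1 : (la + σ.W k' * s + (lb + σ.W k' * s')) / σ.W k' = s + s' :=
      quot (la + lb) _ _ (by omega) (by ring)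
    by_cases hl1 : l' = k'
    · subst hl1
      obtain ⟨lb2, hlb2, s2', hs2', rfl⟩ := hb2
      have hlb2' := St.low_lt σ l' lb2 hlb2
      have hs2'l := (σ.comp l').S_lab O' h3' hO' s2' hs2'
      have q2 : (la2 + σ.W l' * s2 + (lb2 + σ.W l' * s2')) / σ.W l' = s2 + s2' :=
        quot (la2 + lb2) _ _ (by omega) (by ring)
      rw [h, q2] at q1
      have e1 : (s2 + s2') % (2 * σ.p l') = N + O' := by
        rw [Nat.add_mod, hs2l, hs2'l, Nat.mod_eq_of_lt (by omega)]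
      have e2 : (s + s') % (2 * σ.p l') = N + N' := by
        rw [Nat.add_mod, hsl, hs'l, Nat.mod_eq_of_lt (by omega)]
      rw [q1, e2] at e1
      exact ⟨rfl, by omega⟩
    · exfalso
      have hlt : l' < k' := by omega
      have hb2' := St.part_lt_W σ h3' hO' hlt b2 hb2
      have q2 : (la2 + σ.W k' * s2 + b2) / σ.W k' = s2 :=
        quot (la2 + b2) _ _ (by omega) (by ring)
      rw [h, q2] at q1
      have e2 : (s + s') % (2 * σ.p k') = N + N' := by
        rw [Nat.add_mod, hsl, hs'l, Nat.mod_eq_of_lt (by omega)]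
      rw [← q1, hs2l] at e2
      omega
  · have hklt : k' < k := by omega
    have hb' := St.part_lt_W σ h2' hN' hklt b hb
    have q1 : (la + σ.W k * s + b) / σ.W k = s :=
      quot (la + b) _ _ (by omega) (by ring)
    by_cases hl1 : l' = k
    · exfalso
      subst hl1
      obtain ⟨lb2, hlb2, s2', hs2', rfl⟩ := hb2
      have hlb2' := St.low_lt σ l' lb2 hlb2
      have hs2'l := (σ.comp l').S_lab O' h3' hO' s2' hs2'
      have q2 : (la2 + σ.W l' * s2 + (lb2 + σ.W l' * s2')) / σ.W l' = s2 + s2' :=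
        quot (la2 + lb2) _ _ (by omega) (by ring)
      rw [h, q2] at q1
      have e1 : (s2 + s2') % (2 * σ.p l') = N + O' := by
        rw [Nat.add_mod, hs2l, hs2'l, Nat.mod_eq_of_lt (by omega)]
      rw [q1, hsl] at e1
      omega
    · have hllt : l' < k := by omega
      have hb2' := St.part_lt_W σ h3' hO' hllt b2 hb2
      have q2 : (la2 + σ.W k * s2 + b2) / σ.W k = s2 :=
        quot (la2 + b2) _ _ (by omega) (by ring)
      have hss : s = s2 := by
        rw [← q1, h, q2]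
      subst hss
      have hm : la + b = la2 + b2 := by omega
      have L1 := label σ hklt h2' hN' hla hb hklt
      have L2 := label σ hllt h3' hO' hla2 hb2 hklt
      rw [hm, L2, if_pos rfl] at L1
      by_cases he : k' = l'
      · rw [if_pos he] at L1
        exact ⟨he, L1.symm⟩
      · rw [if_neg he] at L1
        omega

end Pool.Agent.Helper7.WT
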